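import Pool.Agent.H14.TA.Stmts

/-!
# Project ART, module F1: a V-wall crosses a shortest word at most once
-/

namespace TA
namespace F12

variable {κ : ℕ}

/-- `δ` or `δ'` -/
def dl (κ : ℕ) (x : Bool) : D κ := (dgen κ x * dgen κ (!x)) ^ κ

theorem zz_eq (κ : ℕ) (x : Bool) : (dgen κ x * dgen κ (!x)) ^ (2 * κ) = zz κ := by
  cases x
  · rfl
  · exact dgen_rel κ true false

theorem dl_sq (κ : ℕ) (x : Bool) : dl κ x * dl κ x = zz κ := by
  rw [← zz_eq κ x, dl, ← pow_add, two_mul]

theorem zz_comm_gen (κ : ℕ) (x : Bool) : Commute (zz κ) (dgen κ x) := by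
  have h1 := zz_eq κ x
  have h2 := zz_eq κ (!x)
  rw [Bool.not_not] at h2
  have h3 := mul_pow_mul (dgen κ x) (dgen κ (!x)) (2 * κ)
  rw [h1, h2] at h3
  exact h3

theorem zz_comm (g : D κ) : Commute (zz κ) g := by
  have hg : g ∈ Subgroup.closure (Set.range (dgen κ)) := by rw [D_closure]; trivial
  induction hg using Subgroup.closure_induction with
  | mem g hg =>
    obtain ⟨x, rfl⟩ := hg
    exact zz_comm_gen κ x
  | one => exact Commute.one_right _
  | mul g k _ _ hg hk => exact hg.mul_right hk
  | inv g _ hg => exact hg.inv_right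

theorem zzc_comm (c : ℤ) (g : D κ) : Commute (zz κ ^ c) g := (zz_comm g).zpow_left c

theorem dl_even (x : Bool) (c : ℤ) : dl κ x ^ (c + c) = zz κ ^ c := by
  rw [zpow_add, ← (Commute.refl (dl κ x)).mul_zpow, dl_sq]

theorem dl_odd (x : Bool) (c : ℤ) : dl κ x ^ (2 * c + 1) = dl κ x * zz κ ^ c := by
  have h : (2 * c + 1 : ℤ) = 1 + (c + c) := by ring
  rw [h, zpow_add, zpow_one, dl_even]

/-- exponent sum -/
def es (κ : ℕ) (f : Bool → ℤ) (g : D κ) : ℤ := Multiplicative.toAdd (dsum κ f g)

theorem es_mul (f : Bool → ℤ) (g h : D κ) : es κ f (g * h) = es κ f g + es κ f h := by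
  simp [es]

theorem es_inv (f : Bool → ℤ) (g : D κ) : es κ f g⁻¹ = - es κ f g := by simp [es]

theorem es_zpow (f : Bool → ℤ) (g : D κ) (n : ℤ) : es κ f (g ^ n) = n * es κ f g := by
  simp [es]

theorem es_pow (f : Bool → ℤ) (g : D κ) (n : ℕ) : es κ f (g ^ n) = n * es κ f g := by
  simp [es]

theorem es_gen (f : Bool → ℤ) (x : Bool) : es κ f (dgen κ x) = f x := by
  simp [es, dsum]

theorem es_dl (f : Bool → ℤ) (x : Bool) : es κ f (dl κ x) = κ * (f x + f (!x)) := by
  rw [dl, es_pow, es_mul, es_gen, es_gen]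

theorem es_zz (f : Bool → ℤ) : es κ f (zz κ) = 2 * κ * (f false + f true) := by
  rw [← dl_sq κ false, es_mul, es_dl]
  simp
  ring

theorem es_ev_le {l : List (Bool × ℤ)} (hl : Lett l) :
    (es κ (fun _ => 1) (ev (dgen κ) l)).natAbs ≤ l.length := by
  induction l with
  | nil => simp [es]
  | cons s l ih =>
    have h1 := ih (fun t ht => hl t (List.mem_cons_of_mem _ ht))
    have h2 := hl s (List.mem_cons_self ..)
    rw [ev_cons, es_mul, es_zpow, es_gen, List.length_cons]
    rcases h2 with h2 | h2 <;> rw [h2] <;> omega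

/-- alternating letter words -/
def alw : Bool → ℕ → List (Bool × ℤ)
  | _, 0 => []
  | x, (n + 1) => (x, 1) :: alw (!x) n

theorem alw_length (x : Bool) (n : ℕ) : (alw x n).length = n := by
  induction n generalizing x with
  | zero => rfl
  | succ n ih => simp [alw, ih]

theorem alw_lett (x : Bool) (n : ℕ) : Lett (alw x n) := by
  induction n generalizing x with
  | zero => intro s hs; simp [alw] at hs
  | succ n ih =>
    intro s hs
    rw [alw, List.mem_cons] at hs
    rcases hs with rfl | hs
    · exact Or.inl rfl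
    · exact ih _ s hs

theorem ev_alw (x : Bool) (n : ℕ) : ev (dgen κ) (alw x n) = alt (dgen κ x) (dgen κ (!x)) n := by
  induction n generalizing x with
  | zero => rfl
  | succ n ih => rw [alw, ev_cons, ih, alt, Bool.not_not, zpow_one]

theorem ev_alw_dl (x : Bool) : ev (dgen κ) (alw x (2 * κ)) = dl κ x := by
  rw [ev_alw, alt_two_mul, dl]

/-- the word of length `2κ - 1` -/
theorem gen_mul_alw (hκ : 1 ≤ κ) (x : Bool) :
    dgen κ x * ev (dgen κ) (alw (!x) (2 * κ - 1)) = dl κ x := by
  obtain ⟨n, hn⟩ : ∃ n, 2 * κ = n + 1 := ⟨2 * κ - 1, by omega⟩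
  have h : 2 * κ - 1 = n := by omega
  rw [h, ← ev_alw_dl, hn, alw, ev_cons, zpow_one]

theorem lett_linv {l : List (Bool × ℤ)} (h : Lett l) : Lett (linv l) := by
  intro s hs
  rw [mem_linv] at hs
  rcases h _ hs with h | h
  · right; simp only at h; omega
  · left; simp only at h; omega

theorem lett_app {l l' : List (Bool × ℤ)} (h : Lett l) (h' : Lett l') : Lett (l ++ l') := by
  intro s hs
  rcases List.mem_append.1 hs with hs | hs
  · exact h s hs
  · exact h' s hs

theorem lett_sub {l l' : List (Bool × ℤ)} (h : Lett l) (h' : l' ⊆ l) : Lett l' :=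
  fun s hs => h s (h' hs)

/-- replacement of a factor -/
theorem repl {w p F q F' : List (Bool × ℤ)} (hw : ZShort κ w) (e : w = p ++ F ++ q)
    (hF' : Lett F') (c : ℤ) (h : ev (dgen κ) F' = ev (dgen κ) F * zz κ ^ c) :
    F.length ≤ F'.length := by
  have hl : Lett w := hw.1
  subst e
  have h1 := hw.2 (p ++ F' ++ q) (lett_app (lett_app (lett_sub hl (by
    intro s hs; simp [hs])) hF') (lett_sub hl (by
    intro s hs; simp [hs])))
    ⟨c, by
      rw [ev_append, ev_append, h, ev_append, ev_append,
        mul_assoc (ev (dgen κ) p * ev (dgen κ) F) (ev (dgen κ) q) _,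
        ← (zzc_comm c (ev (dgen κ) q)).eq]
      simp only [mul_assoc]⟩
  simp only [List.length_append] at h1
  omega

/-- the crossing argument -/
theorem core (hκ : 1 ≤ κ) (x : Bool) {w l1 u2 q : List (Bool × ℤ)} (hw : ZShort κ w)
    {s s' : Bool × ℤ} (e : w = l1 ++ (s :: u2 ++ [s']) ++ q) (hs : s.1 = x) (hs' : s'.1 = x)
    {i i' : ℤ} (hi : i ∈ step s.2) (hi' : i' ∈ step s'.2) (m : ℤ)
    (hm : dl κ x ^ m = dgen κ x ^ (-i) * dgen κ x ^ s.2 * ev (dgen κ) u2 * dgen κ x ^ i') :
    False := by
  have hl : Lett w := hw.1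
  have hls : s.2 = 1 ∨ s.2 = -1 := hl s (by rw [e]; simp)
  have hls' : s'.2 = 1 ∨ s'.2 = -1 := hl s' (by rw [e]; simp)
  have hlu : Lett u2 := lett_sub hl (by intro t ht; rw [e]; simp [ht])
  have hes := es_ev_le (κ := κ) hlu
  have hF : ev (dgen κ) (s :: u2 ++ [s']) = dgen κ x ^ s.2 * ev (dgen κ) u2 * dgen κ x ^ s'.2 := by
    simp [hs, hs', mul_assoc]
  have hsum := congrArg (es κ (fun _ => 1)) hm
  rw [es_mul, es_mul, es_mul, es_zpow, es_zpow, es_zpow, es_zpow, es_gen, es_dl] at hsum
  set U := ev (dgen κ) u2 with hU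
  set A := dgen κ x with hA
  have hlen : (s :: u2 ++ [s']).length = u2.length + 2 := by simp
  -- the even case: some factor is trivial modulo the centre
  rcases Int.even_or_odd m with ⟨c, hc⟩ | ⟨c, hc⟩
  · rw [hc, dl_even] at hm
    rcases hls with h1 | h1 <;> rcases hls' with h2 | h2 <;> rw [h1] at hi hm hF <;>
      rw [h2] at hi' hF
    · -- `A U = z ^ c`
      rw [mem_step_one] at hi hi'
      subst hi hi'
      have := repl (p := l1) (F := s :: u2) (F' := []) (q := [s'] ++ q) hw (by rw [e]; simp)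
        (fun _ h => by simp at h) (-c) (by
          rw [ev_nil, ev_cons, hs, h1, ← hU, ← hA]
          simp only [neg_zero, zpow_zero, one_mul, mul_one] at hm
          rw [← hm, zpow_neg, mul_inv_cancel])
      simp at this
    · rw [mem_step_one] at hi
      rw [mem_step_neg_one] at hi'
      subst hi hi'
      have := repl (F := s :: u2 ++ [s']) (F' := []) (q := q) hw e
        (fun _ h => by simp at h) (-c) (by
          rw [ev_nil, hF]
          simp only [neg_zero, zpow_zero, one_mul] at hm
          rw [← hm, zpow_neg, mul_inv_cancel])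
      simp at this
    · rw [mem_step_one] at hi'
      rw [mem_step_neg_one] at hi
      subst hi hi'
      have := repl (F := s :: u2 ++ [s']) (F' := []) (q := q) hw e
        (fun _ h => by simp at h) (-c) (by
          rw [ev_nil, hF]
          have h3 : U = zz κ ^ c := by
            rw [hm]; group
          rw [h3, ((zzc_comm c (A ^ (-1 : ℤ))).symm).eq, mul_assoc, mul_assoc, zpow_neg (zz κ)]
          have h4 : A ^ (-1 : ℤ) * (A ^ (1 : ℤ) * (zz κ ^ c)⁻¹) = (zz κ ^ c)⁻¹ := by group
          rw [h4, mul_inv_cancel])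
      simp at this
    · rw [mem_step_neg_one] at hi hi'
      subst hi hi'
      have := repl (p := l1 ++ [s]) (F := u2 ++ [s']) (F' := []) (q := q) hw (by rw [e]; simp)
        (fun _ h => by simp at h) (-c) (by
          rw [ev_nil, ev_append, ev_cons, ev_nil, hs', h2, ← hU, ← hA, mul_one]
          have h3 : U * A ^ (-1 : ℤ) = zz κ ^ c := by
            rw [hm]; group
          rw [h3, zpow_neg, mul_inv_cancel])
      simp at this
  · rw [hc, dl_odd] at hm
    rw [hc] at hsum
    have hE : A * _ = dl κ x := gen_mul_alw hκ x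
    have hz := dl_sq κ x
    have hlE : (alw (!x) (2 * κ - 1)).length = 2 * κ - 1 := alw_length _ _
    set E := ev (dgen κ) (alw (!x) (2 * κ - 1)) with hEdef
    have hbig : 2 * (κ : ℤ) ≤ ((2 * c + 1) * (κ * (1 + 1))).natAbs := by
      have h5 : (2 * c + 1) * ((κ : ℤ) * (1 + 1)) = (2 * κ) * (2 * c + 1) := by ring
      rw [h5, Int.natAbs_mul]
      have h6 : 1 ≤ (2 * c + 1).natAbs := by omega
      have h7 : (2 * (κ : ℤ)).natAbs = 2 * κ := by omega
      rw [h7]
      push_cast
      have : (2 * (κ : ℤ)) * 1 ≤ 2 * κ * ((2 * c + 1).natAbs : ℤ) :=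
        mul_le_mul_of_nonneg_left (by exact_mod_cast h6) (by positivity)
      have h8 : (((2 * c + 1).natAbs : ℕ) : ℤ) = |2 * c + 1| := Int.natCast_natAbs _
      rw [h8] at this
      linarith
    rcases hls with h1 | h1 <;> rcases hls' with h2 | h2 <;> rw [h1] at hi hm hF hsum <;>
      rw [h2] at hi' hF
    · -- `A U = δ z ^ c`
      rw [mem_step_one] at hi hi'
      subst hi hi'
      have := repl (F := s :: u2 ++ [s']) (F' := linv (alw (!x) (2 * κ - 1))) (q := q) hw e
        (lett_linv (alw_lett _ _)) (-(c + 1)) (by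
          rw [ev_linv, ← hEdef, hF]
          simp only [neg_zero, zpow_zero, one_mul, mul_one] at hm
          rw [← hm, mul_assoc, mul_assoc, (zzc_comm c _).eq, mul_assoc, ← zpow_add]
          have h3 : (-(c + 1) + c : ℤ) = -1 := by ring
          have hE' : E = A⁻¹ * dl κ x := by rw [← hE]; group
          rw [h3, zpow_one, zpow_neg_one, ← ((zz_comm A).inv_left).eq, ← hz, hE']
          group)
      rw [hlen, length_linv, hlE] at this
      simp only [neg_zero, add_zero, mul_one, zero_add] at hsum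
      omega
    · rw [mem_step_one] at hi
      rw [mem_step_neg_one] at hi'
      subst hi hi'
      have := repl (F := s :: u2 ++ [s']) (F' := alw x (2 * κ)) (q := q) hw e
        (alw_lett _ _) (-c) (by
          rw [ev_alw_dl, hF]
          simp only [neg_zero, zpow_zero, one_mul] at hm
          rw [← hm]; group)
      rw [hlen, alw_length] at this
      simp only [neg_zero, zero_mul, one_mul, zero_add] at hsum
      omega
    · rw [mem_step_one] at hi'
      rw [mem_step_neg_one] at hi
      subst hi hi'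
      have := repl (F := s :: u2 ++ [s']) (F' := alw (!x) (2 * κ)) (q := q) hw e
        (alw_lett _ _) (-c) (by
          have h3 : U = dl κ x * zz κ ^ c := by
            rw [hm]; group
          rw [ev_alw_dl, hF, h3]
          have h4 : A * dl κ (!x) = dl κ x * A := by
            rw [dl, dl, Bool.not_not]
            exact (mul_pow_mul _ _ _).symm
          have h5 : dl κ (!x) = A⁻¹ * (dl κ x * A) := by rw [← h4]; group
          rw [h5]
          have h6 : A ^ (-1 : ℤ) * (dl κ x * zz κ ^ c) * A ^ (1 : ℤ) * zz κ ^ (-c) =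
              A⁻¹ * dl κ x * (zz κ ^ c * A) * zz κ ^ (-c) := by group
          rw [h6, (zzc_comm c A).eq]
          group)
      rw [hlen, alw_length] at this
      simp only [neg_neg, mul_one, add_zero] at hsum
      omega
    · rw [mem_step_neg_one] at hi hi'
      subst hi hi'
      have := repl (F := s :: u2 ++ [s']) (F' := alw (!x) (2 * κ - 1)) (q := q) hw e
        (alw_lett _ _) (-c) (by
          have h3 : U * A ^ (-1 : ℤ) = dl κ x * zz κ ^ c := by
            rw [hm]; group
          rw [← hEdef, hF, mul_assoc (A ^ (-1 : ℤ)), h3, ← hE]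
          group)
      rw [hlen, hlE] at this
      simp only [neg_neg, mul_one] at hsum
      omega

/-- the family of a letter -/
def fm (x : Bool) : LFam := if x then LFam.Vb else LFam.Va

theorem fm_letter (x : Bool) : (fm x).letter = x := by cases x <;> rfl

theorem fm_B (κ : ℕ) (x : Bool) : (fm x).B κ = Subgroup.zpowers (dl κ x) := by cases x <;> rfl

theorem exists_fm {f : LFam} (h : f ≠ LFam.Ha) : ∃ x, f = fm x := by
  cases f
  · exact ⟨false, rfl⟩
  · exact ⟨true, rfl⟩
  · exact absurd rfl h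

theorem f1_lt (hκ : 1 ≤ κ) (x : Bool) {w : List (Bool × ℤ)} (hw : ZShort κ w) {t : D κ}
    {l1 l2 l1' l2' : List (Bool × ℤ)} {s s' : Bool × ℤ} (e : w = l1 ++ s :: l2)
    (e' : w = l1' ++ s' :: l2')
    (hc : Cr (dgen κ) x (Subgroup.zpowers (dl κ x)) t (ev (dgen κ) l1) s)
    (hc' : Cr (dgen κ) x (Subgroup.zpowers (dl κ x)) t (ev (dgen κ) l1') s')
    (hlt : l1.length < l1'.length) : False := by
  obtain ⟨hs, i, hi, hiB⟩ := hc
  obtain ⟨hs', i', hi', hiB'⟩ := hc'
  have he := e.symm.trans e'
  rw [List.append_eq_append_iff] at he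
  rcases he with ⟨a', h1, h2⟩ | ⟨a', h1, h2⟩
  · cases a' with
    | nil => rw [h1] at hlt; simp at hlt
    | cons s0 u2 =>
      rw [List.cons_append, List.cons.injEq] at h2
      obtain ⟨rfl, h2⟩ := h2
      have hmem := Subgroup.mul_mem _ (Subgroup.inv_mem _ hiB) hiB'
      obtain ⟨m, hm⟩ := Subgroup.mem_zpowers_iff.1 hmem
      refine core hκ x hw (l1 := l1) (u2 := u2) (q := l2') (s := s) (s' := s') ?_ hs hs' hi hi' m ?_
      · rw [e', h1]; simp
      · rw [hm, h1, ev_append, ev_cons, hs]
        group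
  · rw [h1] at hlt
    simp at hlt

end F12

open F12

theorem f1 : S_F1 := by
  intro κ hκ f hf w hw t l1 s l2 l1' s' l2' e e' hc hc'
  obtain ⟨x, rfl⟩ := exists_fm hf
  rw [fm_letter, fm_B] at hc hc'
  rcases lt_trichotomy l1.length l1'.length with h | h | h
  · exact (f1_lt (by omega) x hw e e' hc hc' h).elim
  · exact h
  · exact (f1_lt (by omega) x hw e' e hc' hc h).elim

end TA
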