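import Pool.Agent.H24.TA.F1

/-!
# Project ART, module F2: exceptional walls outside the first run
-/

namespace TA
namespace F12

variable {κ : ℕ}

theorem zshort_prefix {w w' v : List (Bool × ℤ)} (hw : ZShort κ w) (e : w = w' ++ v) :
    ZShort κ w' := by
  refine ⟨lett_sub hw.1 (by rw [e]; intro s hs; simp [hs]), ?_⟩
  rintro F' hF' ⟨c, hc⟩
  exact repl (p := []) (F := w') (q := v) hw (by simpa using e) hF' c hc

theorem gen_pow_mem (x y : Bool) (hy : y ≠ x) (hκ : 1 ≤ κ) (n : ℤ)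
    (h : dgen κ x ^ n ∈ Subgroup.zpowers (dl κ y)) : n = 0 := by
  obtain ⟨m, hm⟩ := Subgroup.mem_zpowers_iff.1 h
  have h1 := congrArg (es κ (fun z => if z = y then 1 else 0)) hm
  have h2 := congrArg (es κ (fun _ => 1)) hm
  have hny : (!y) ≠ y := by cases y <;> decide
  rw [es_zpow, es_zpow, es_dl, es_gen] at h1 h2
  rw [if_pos rfl, if_neg hny, if_neg (Ne.symm hy)] at h1
  have hm0 : m = 0 := by
    rcases mul_eq_zero.1 (h1.trans (mul_zero n)) with h | h
    · exact h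
    · exfalso
      have : (κ : ℤ) = 0 := by linarith
      omega
  rw [hm0] at h2
  linarith

theorem gen_pow_mem' (x : Bool) (hκ : 1 ≤ κ) (n : ℤ)
    (h : dgen κ x ^ n ∈ Subgroup.zpowers (dl κ x)) : n = 0 := by
  obtain ⟨m, hm⟩ := Subgroup.mem_zpowers_iff.1 h
  have hny : (!x) ≠ x := by cases x <;> decide
  have h1 := congrArg (es κ (fun z => if z = (!x) then 1 else 0)) hm
  have h2 := congrArg (es κ (fun _ => 1)) hm
  rw [es_zpow, es_zpow, es_dl, es_gen] at h1 h2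
  rw [if_neg (Ne.symm hny), if_pos rfl] at h1
  have hm0 : m = 0 := by
    rcases mul_eq_zero.1 (h1.trans (mul_zero n)) with h | h
    · exact h
    · exfalso
      have : (κ : ℤ) = 0 := by linarith
      omega
  rw [hm0] at h2
  linarith

section side
variable {y : Bool} {σ : D κ → D κ → ZMod 2}

open Classical in
/-- crossings of `(x y)^m` with walls of the letter `y` -/
theorem side_pow (hσ : IsSide (dgen κ) (!y) (Subgroup.zpowers (dl κ (!y))) σ) (t : D κ) (m : ℕ) :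
    σ t ((dgen κ y * dgen κ (!y)) ^ m) = ∑ j ∈ Finset.range m,
      if t⁻¹ * (dgen κ y * dgen κ (!y)) ^ j * dgen κ y ∈ Subgroup.zpowers (dl κ (!y)) then 1
        else 0 := by
  have hne : y ≠ (!y) := by cases y <;> decide
  induction m with
  | zero => simpa using hσ.one t
  | succ m ih =>
    rw [pow_succ, hσ.mul, ih, Finset.sum_range_succ, hσ.mul, hσ.other _ _ hne, zero_add, hσ.self]
    congr 1
    have : (dgen κ y)⁻¹ * (((dgen κ y * dgen κ (!y)) ^ m)⁻¹ * t) ∈ Subgroup.zpowers (dl κ (!y)) ↔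
        t⁻¹ * (dgen κ y * dgen κ (!y)) ^ m * dgen κ y ∈ Subgroup.zpowers (dl κ (!y)) := by
      rw [← (Subgroup.zpowers (dl κ (!y))).inv_mem_iff]
      simp only [mul_inv_rev, inv_inv]
    simp only [this]

/-- the central element does not change sides -/
theorem side_zz (hσ : IsSide (dgen κ) (!y) (Subgroup.zpowers (dl κ (!y))) σ) (t : D κ) :
    σ t (zz κ) = 0 := by
  classical
  rw [← zz_eq κ y, side_pow hσ, two_mul, Finset.sum_range_add]
  rw [← Finset.sum_add_distrib]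
  apply Finset.sum_eq_zero
  intro j _
  have : t⁻¹ * (dgen κ y * dgen κ (!y)) ^ (κ + j) * dgen κ y ∈ Subgroup.zpowers (dl κ (!y)) ↔
      t⁻¹ * (dgen κ y * dgen κ (!y)) ^ j * dgen κ y ∈ Subgroup.zpowers (dl κ (!y)) := by
    have h1 : (dgen κ y * dgen κ (!y)) ^ κ * dgen κ y = dgen κ y * dl κ (!y) := by
      rw [dl, Bool.not_not]
      exact mul_pow_mul _ _ _
    have h2 : t⁻¹ * (dgen κ y * dgen κ (!y)) ^ (κ + j) * dgen κ y =
        t⁻¹ * (dgen κ y * dgen κ (!y)) ^ j * dgen κ y * dl κ (!y) := by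
      rw [add_comm, pow_add, mul_assoc, mul_assoc, h1]
      simp only [mul_assoc]
    rw [h2]
    exact Subgroup.mul_mem_cancel_right _ (Subgroup.mem_zpowers _)
  simp only [this]
  exact CharTwo.add_self_eq_zero _

theorem side_zzc (hσ : IsSide (dgen κ) (!y) (Subgroup.zpowers (dl κ (!y))) σ) (t : D κ) (c : ℤ) :
    σ t (zz κ ^ c) = 0 := by
  have hn : ∀ (n : ℕ) (t : D κ), σ t (zz κ ^ n) = 0 := by
    intro n
    induction n with
    | zero => intro t; simpa using hσ.one t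
    | succ n ih => intro t; rw [pow_succ, hσ.mul, ih, side_zz hσ, add_zero]
  cases c with
  | ofNat n => simpa using hn n t
  | negSucc n => rw [zpow_negSucc, hσ.inv]; exact hn _ _

theorem side_mul_zzc (hσ : IsSide (dgen κ) (!y) (Subgroup.zpowers (dl κ (!y))) σ) (t g : D κ)
    (c : ℤ) : σ t (g * zz κ ^ c) = σ t g := by
  rw [hσ.mul, side_zzc hσ, add_zero]

/-- a shortest word whose value is a power of `y` times a central element has no other letter -/
theorem only (hκ : 1 ≤ κ) (hσ : IsSide (dgen κ) (!y) (Subgroup.zpowers (dl κ (!y))) σ)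
    {w : List (Bool × ℤ)} (hw : ZShort κ w) (n c : ℤ)
    (he : ev (dgen κ) w = dgen κ y ^ n * zz κ ^ c) : ∀ s ∈ w, s.1 = y := by
  intro s hs
  by_contra hsy
  have hsy' : s.1 = (!y) := by
    cases h : s.1 <;> cases hy : y <;> simp_all
  obtain ⟨l1, l2, e⟩ := List.append_of_mem hs
  have hls := hw.1 s hs
  have hi : ∃ i : ℤ, i ∈ step s.2 := by
    rcases hls with h | h
    · exact ⟨0, by rw [h, mem_step_one]⟩
    · exact ⟨-1, by rw [h, mem_step_neg_one]⟩
  obtain ⟨i, hi⟩ := hi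
  have hne : y ≠ (!y) := by cases y <;> decide
  have hc : Cr (dgen κ) (!y) (Subgroup.zpowers (dl κ (!y)))
      (ev (dgen κ) l1 * dgen κ (!y) ^ i) (ev (dgen κ) l1) s := by
    refine ⟨hsy', i, hi, ?_⟩
    have : (ev (dgen κ) l1 * dgen κ (!y) ^ i)⁻¹ * ev (dgen κ) l1 * dgen κ (!y) ^ i = 1 := by group
    rw [this]
    exact Subgroup.one_mem _
  have h1 := hσ.eq_one_of_unique (gen_pow_mem' (!y) hκ) (ev (dgen κ) l1 * dgen κ (!y) ^ i) w l1 s l2
    e hc (by
      intro m1 v m2 e' hc'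
      rcases lt_trichotomy m1.length l1.length with h | h | h
      · exact (f1_lt hκ (!y) hw e' e hc' hc h).elim
      · exact h
      · exact (f1_lt hκ (!y) hw e e' hc hc' h).elim)
  rw [he, side_mul_zzc hσ, hσ.zpow_other hne] at h1
  exact absurd h1 (by decide)

/-- the side of `y^n δ` with respect to the wall `y^(n+1) B` -/
theorem side_one (hκ : 1 ≤ κ) (hσ : IsSide (dgen κ) (!y) (Subgroup.zpowers (dl κ (!y))) σ)
    (n c : ℤ) : σ (dgen κ y ^ (n + 1)) (dgen κ y ^ n * dl κ y * zz κ ^ c) = 1 := by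
  classical
  have hne : y ≠ (!y) := by cases y <;> decide
  rw [side_mul_zzc hσ, hσ.mul, hσ.zpow_other hne, zero_add, dl, side_pow hσ]
  rw [Finset.sum_eq_single_of_mem 0 (Finset.mem_range.2 (by omega))]
  · rw [if_pos]
    have : ((dgen κ y ^ n)⁻¹ * dgen κ y ^ (n + 1))⁻¹ * (dgen κ y * dgen κ (!y)) ^ 0 * dgen κ y
        = 1 := by
      rw [pow_zero, mul_one]
      group
    rw [this]
    exact Subgroup.one_mem _
  · intro j hj hj0
    rw [if_neg]
    intro hmem
    obtain ⟨m, hm⟩ := Subgroup.mem_zpowers_iff.1 hmem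
    have h1 := congrArg (es κ (fun z => if z = (!y) then 1 else 0)) hm
    rw [es_zpow, es_dl, es_mul, es_mul, es_inv, es_mul, es_inv, es_zpow, es_zpow, es_pow, es_mul,
      es_gen, es_gen, if_pos rfl, if_neg hne, Bool.not_not, if_neg hne] at h1
    have hj' := Finset.mem_range.1 hj
    have h2 : m * (κ : ℤ) = j := by linarith
    have h3 : 0 < j := Nat.pos_of_ne_zero hj0
    have hk : (0 : ℤ) < κ := by omega
    have h4 : (j : ℤ) < κ := by omega
    rcases lt_trichotomy m 0 with hm' | hm' | hm'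
    · nlinarith
    · rw [hm'] at h2; omega
    · nlinarith

theorem side_zero (hκ : 1 ≤ κ) (hσ : IsSide (dgen κ) (!y) (Subgroup.zpowers (dl κ (!y))) σ)
    (n n' c : ℤ) (hn : n ≠ n') :
    σ (dgen κ y ^ (n + 1)) (dgen κ y ^ n' * dl κ y * zz κ ^ c) = 0 := by
  classical
  have hne : y ≠ (!y) := by cases y <;> decide
  rw [side_mul_zzc hσ, hσ.mul, hσ.zpow_other hne, zero_add, dl, side_pow hσ]
  apply Finset.sum_eq_zero
  intro j hj
  rw [if_neg]
  intro hmem
  obtain ⟨m, hm⟩ := Subgroup.mem_zpowers_iff.1 hmem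
  have h1 := congrArg (es κ (fun z => if z = (!y) then 1 else 0)) hm
  have h1' := congrArg (es κ (fun z => if z = y then 1 else 0)) hm
  rw [es_zpow, es_dl, es_mul, es_mul, es_inv, es_mul, es_inv, es_zpow, es_zpow, es_pow, es_mul,
    es_gen, es_gen, Bool.not_not] at h1 h1'
  rw [if_pos rfl, if_neg hne] at h1
  rw [if_pos rfl, if_neg hne.symm] at h1'
  have hj' := Finset.mem_range.1 hj
  have h2 : m * (κ : ℤ) = j := by linarith
  have hk : (0 : ℤ) < κ := by omega
  have h4 : (j : ℤ) < κ := by omega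
  have h5 : (0 : ℤ) ≤ j := by omega
  have hm0 : m = 0 := by
    rcases lt_trichotomy m 0 with hm' | hm' | hm'
    · nlinarith
    · exact hm'
    · nlinarith
  rw [hm0] at h1' h2
  have h6 : (j : ℤ) = 0 := by linarith
  rw [h6] at h1'
  apply hn
  linarith

end side

/-- the prefix up to the base of the crossed step -/
theorem base (P : List (Bool × ℤ)) {s : Bool × ℤ} {x : Bool} (hs : s.1 = x)
    (hs2 : s.2 = 1 ∨ s.2 = -1) {i : ℤ} (hi : i ∈ step s.2) :
    (s.2 = 1 ∧ ev (dgen κ) P * dgen κ x ^ i = ev (dgen κ) P) ∨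
      (s.2 = -1 ∧ ev (dgen κ) P * dgen κ x ^ i = ev (dgen κ) (P ++ [s])) := by
  rcases hs2 with h | h
  · left
    rw [h, mem_step_one] at hi
    subst hi
    exact ⟨h, by simp⟩
  · right
    have hi' := hi
    rw [h, mem_step_neg_one] at hi'
    subst hi'
    exact ⟨h, by simp [hs, h]⟩

/-- the analysis of one exceptional crossing: the prefix `P0` up to the base -/
theorem one_cross (hκ : 1 ≤ κ) {x : Bool} {σ : D κ → D κ → ZMod 2}
    (hσ : IsSide (dgen κ) (!x) (Subgroup.zpowers (dl κ (!x))) σ) {w0 w1 : List (Bool × ℤ)}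
    (hw : ZShort κ (w0 ++ w1)) (hw0 : w0 ≠ [])
    (h1 : ∀ s ∈ w0, ∀ s' ∈ w1.head?, s.1 ≠ s'.1) {t : D κ} {l1 l2 : List (Bool × ℤ)}
    {s : Bool × ℤ} (e : w1 = l1 ++ s :: l2)
    (hc : Cr (dgen κ) x (Subgroup.zpowers (dl κ x)) t (ev (dgen κ) (w0 ++ l1)) s) {n : ℤ}
    (hn : t⁻¹ * dgen κ x ^ n ∈ Subgroup.zpowers (dl κ x)) :
    ∃ (b : Bool) (c : ℤ), (ev (dgen κ) (w0 ++ l1 ++ if b then [s] else []) =
      dgen κ x ^ n * dl κ x * zz κ ^ c) := by
  obtain ⟨hs, i, hi, hiB⟩ := hc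
  have hs2 : s.2 = 1 ∨ s.2 = -1 := hw.1 s (by rw [e]; simp)
  obtain ⟨m, hm⟩ := Subgroup.mem_zpowers_iff.1
    (Subgroup.mul_mem _ (Subgroup.inv_mem _ hn) hiB)
  have hbase : ∃ b : Bool, ev (dgen κ) (w0 ++ l1) * dgen κ x ^ i =
      ev (dgen κ) (w0 ++ l1 ++ if b then [s] else []) := by
    rcases base (κ := κ) (w0 ++ l1) hs hs2 hi with ⟨-, h⟩ | ⟨-, h⟩
    · exact ⟨false, by simpa using h⟩
    · exact ⟨true, by simpa using h⟩
  obtain ⟨b, hb⟩ := hbase
  have hval : ev (dgen κ) (w0 ++ l1 ++ if b then [s] else []) = dgen κ x ^ n * dl κ x ^ m := by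
    rw [← hb, hm]
    group
  rcases Int.even_or_odd m with ⟨c, hc'⟩ | ⟨c, hc'⟩
  · exfalso
    rw [hc', dl_even] at hval
    have hpre : ∃ v, w0 ++ w1 = (w0 ++ l1 ++ if b then [s] else []) ++ v := by
      cases b
      · exact ⟨s :: l2, by rw [e]; simp⟩
      · exact ⟨l2, by rw [e]; simp⟩
    obtain ⟨v, hv⟩ := hpre
    have honly := only hκ hσ (zshort_prefix hw hv) n c hval
    obtain ⟨a0, ha0⟩ := List.exists_mem_of_ne_nil _ hw0
    have hx0 : a0.1 = x := honly a0 (by simp [ha0])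
    cases l1 with
    | nil =>
      exact h1 a0 ha0 s (by rw [e]; simp) (by rw [hx0, hs])
    | cons s0 l1 =>
      exact h1 a0 ha0 s0 (by rw [e]; simp) (by rw [hx0, honly s0 (by simp)])
  · exact ⟨b, c, by rw [hval, hc', dl_odd, mul_assoc]⟩

theorem f2_lt (hκ : 1 ≤ κ) {x : Bool} {σ : D κ → D κ → ZMod 2}
    (hσ : IsSide (dgen κ) (!x) (Subgroup.zpowers (dl κ (!x))) σ) {w0 w1 : List (Bool × ℤ)}
    (hw : ZShort κ (w0 ++ w1)) (hw0 : w0 ≠ [])
    (h1 : ∀ s ∈ w0, ∀ s' ∈ w1.head?, s.1 ≠ s'.1) {t t' : D κ} {l1 l2 l1' l2' : List (Bool × ℤ)}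
    {s s' : Bool × ℤ} (e : w1 = l1 ++ s :: l2) (e' : w1 = l1' ++ s' :: l2')
    (hc : Cr (dgen κ) x (Subgroup.zpowers (dl κ x)) t (ev (dgen κ) (w0 ++ l1)) s)
    (hc' : Cr (dgen κ) x (Subgroup.zpowers (dl κ x)) t' (ev (dgen κ) (w0 ++ l1')) s') {n n' : ℤ}
    (hn : t⁻¹ * dgen κ x ^ n ∈ Subgroup.zpowers (dl κ x))
    (hn' : t'⁻¹ * dgen κ x ^ n' ∈ Subgroup.zpowers (dl κ x)) (hlt : l1.length < l1'.length) :
    False := by
  obtain ⟨b, c, hb⟩ := one_cross hκ hσ hw hw0 h1 e hc hn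
  obtain ⟨b', c', hb'⟩ := one_cross hκ hσ hw hw0 h1 e' hc' hn'
  by_cases hnn : n = n'
  · -- the same wall
    subst hnn
    have htt : t⁻¹ * t' ∈ Subgroup.zpowers (dl κ x) := by
      have := Subgroup.mul_mem _ hn (Subgroup.inv_mem _ hn')
      have h2 : t⁻¹ * dgen κ x ^ n * (t'⁻¹ * dgen κ x ^ n)⁻¹ = t⁻¹ * t' := by group
      rwa [h2] at this
    have hc2 : Cr (dgen κ) x (Subgroup.zpowers (dl κ x)) t (ev (dgen κ) (w0 ++ l1')) s' := by
      obtain ⟨g1, i, g2, g3⟩ := hc'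
      refine ⟨g1, i, g2, ?_⟩
      have := Subgroup.mul_mem _ htt g3
      have h2 : t⁻¹ * t' * (t'⁻¹ * ev (dgen κ) (w0 ++ l1') * dgen κ x ^ i) =
        t⁻¹ * ev (dgen κ) (w0 ++ l1') * dgen κ x ^ i := by group
      rwa [h2] at this
    refine f1_lt hκ x hw (l1 := w0 ++ l1) (l1' := w0 ++ l1') (l2 := l2) (l2' := l2') (s := s)
      (s' := s') (by rw [e]; simp) (by rw [e']; simp) hc hc2 ?_
    simp only [List.length_append]
    omega
  · -- the second prefix extends the first one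
    obtain ⟨U, V, hU, hV⟩ : ∃ U V, (w0 ++ l1' ++ if b' then [s'] else []) =
        (w0 ++ l1 ++ if b then [s] else []) ++ U ∧
        w0 ++ w1 = (w0 ++ l1' ++ if b' then [s'] else []) ++ V := by
      have he := e.symm.trans e'
      rw [List.append_eq_append_iff] at he
      obtain ⟨V, hV⟩ : ∃ V, w0 ++ w1 = (w0 ++ l1' ++ if b' then [s'] else []) ++ V := by
        cases b'
        · exact ⟨s' :: l2', by rw [e']; simp⟩
        · exact ⟨l2', by rw [e']; simp⟩
      rcases he with ⟨a', g1, g2⟩ | ⟨a', g1, g2⟩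
      · cases a' with
        | nil => rw [g1] at hlt; simp at hlt
        | cons s0 u2 =>
          rw [List.cons_append, List.cons.injEq] at g2
          obtain ⟨rfl, g2⟩ := g2
          cases b
          · exact ⟨s :: u2 ++ (if b' then [s'] else []), V, by rw [g1]; simp, hV⟩
          · exact ⟨u2 ++ (if b' then [s'] else []), V, by rw [g1]; simp, hV⟩
      · rw [g1] at hlt
        simp at hlt
    set P0 := w0 ++ l1 ++ if b then [s] else [] with hP0
    rw [hU] at hb' hV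
    have s1 : σ (dgen κ x ^ (n + 1)) (ev (dgen κ) P0) = 1 := by rw [hb]; exact side_one hκ hσ n c
    have s0 : σ (dgen κ x ^ (n + 1)) (ev (dgen κ) (P0 ++ U)) = 0 := by
      rw [hb']; exact side_zero hκ hσ n n' c' hnn
    rw [ev_append, hσ.mul, s1] at s0
    have s2 : σ ((ev (dgen κ) P0)⁻¹ * dgen κ x ^ (n + 1)) (ev (dgen κ) U) ≠ 0 := by
      intro h
      rw [h] at s0
      exact absurd s0 (by decide)
    obtain ⟨a1, v1, a2, ha, hca⟩ := hσ.exists_cross (gen_pow_mem' (!x) hκ) _ 1 P0 (by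
      simp only [inv_one, one_mul]
      rw [s1]
      decide)
    obtain ⟨b1, v2, b2, hb2, hcb⟩ := hσ.exists_cross (gen_pow_mem' (!x) hκ) _ (ev (dgen κ) P0) U s2
    rw [one_mul] at hca
    refine f1_lt hκ (!x) hw (l1 := a1) (l1' := P0 ++ b1) (l2 := a2 ++ U ++ V) (l2' := b2 ++ V)
      (s := v1) (s' := v2) ?_ ?_ hca (by rw [ev_append]; exact hcb) ?_
    · rw [hV, ha]; simp
    · rw [hV, hb2]; simp
    · rw [ha]; simp

end F12

open F12

theorem f2 (hS : S_SIDED) : S_F2 := by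
  intro κ hκ f hf w0 w1 hw hw0 h0 h1 t l1 s l2 t' l1' s' l2' e e' hc hc' hn hn'
  obtain ⟨x, rfl⟩ := exists_fm hf
  rw [fm_letter, fm_B] at hc hc' hn hn'
  obtain ⟨n, hn⟩ := hn
  obtain ⟨n', hn'⟩ := hn'
  obtain ⟨σ, hσ⟩ := hS κ (by omega) (fm (!x))
  rw [fm_letter, fm_B] at hσ
  rcases lt_trichotomy l1.length l1'.length with h | h | h
  · exact (f2_lt (by omega) hσ hw hw0 h1 e e' hc hc' hn hn' h).elim
  · exact h
  · exact (f2_lt (by omega) hσ hw hw0 h1 e' e hc' hc hn' hn h).elim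

end TA
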